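import Pool.Agent.H57.UP.Defs

/-!
# Project UP (MP_a3214d), row UP-1: averaging over a transitive group, greedy covering
-/

set_option autoImplicit false

namespace Pool.Agent.H57.UP

open Pool.Agent.H52.UB

/-- the number of the elements of a transitive group which move `b` to `r` -/
theorem up1_count {E : Type*} [Fintype E] [DecidableEq E] (G : Subgroup (Equiv.Perm E))
    [Fintype G] (hG : ∀ x y : E, ∃ g ∈ G, g x = y) (b r : E) :
    Fintype.card E * (Finset.univ.filter (fun g : G => (g : Equiv.Perm E) b = r)).card =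
      Fintype.card G := by
  have h1 : ∀ r' : E, (Finset.univ.filter (fun g : G => (g : Equiv.Perm E) b = r')).card =
      (Finset.univ.filter (fun g : G => (g : Equiv.Perm E) b = r)).card := by
    intro r'
    obtain ⟨h, hh, hhr⟩ := hG r' r
    refine Finset.card_bij (fun g _ => (⟨h, hh⟩ : G) * g) ?_ ?_ ?_
    · intro g hg
      rw [Finset.mem_filter] at hg ⊢
      refine ⟨Finset.mem_univ _, ?_⟩
      show h ((g : Equiv.Perm E) b) = r
      rw [hg.2, hhr]
    · intro g _ g' _ e
      exact mul_left_cancel e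
    · intro g hg
      rw [Finset.mem_filter] at hg
      refine ⟨(⟨h, hh⟩ : G)⁻¹ * g, ?_, mul_inv_cancel_left _ _⟩
      rw [Finset.mem_filter]
      refine ⟨Finset.mem_univ _, ?_⟩
      show h⁻¹ ((g : Equiv.Perm E) b) = r'
      rw [hg.2, ← hhr]
      exact Equiv.symm_apply_apply h r'
  have h2 := Finset.card_eq_sum_card_fiberwise (s := (Finset.univ : Finset G))
    (t := (Finset.univ : Finset E)) (f := fun g : G => (g : Equiv.Perm E) b)
    (fun _ _ => Finset.mem_coe.2 (Finset.mem_univ _))
  rw [Finset.sum_congr rfl (fun r' _ => h1 r'), Finset.sum_const, Finset.card_univ,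
    Finset.card_univ, smul_eq_mul] at h2
  exact h2.symm

/-- averaging over a transitive group -/
theorem avg {E : Type*} [Fintype E] [DecidableEq E] (G : Subgroup (Equiv.Perm E))
    (hG : ∀ x y : E, ∃ g ∈ G, g x = y) (B R : Finset E) :
    ∃ g ∈ G, B.card * R.card ≤ Fintype.card E * ((B.map g.toEmbedding) ∩ R).card := by
  classical
  have hfin : Fintype G := Fintype.ofFinite G
  by_contra hcon
  push Not at hcon
  have key : ∑ g : G, Fintype.card E * ((B.map (g : Equiv.Perm E).toEmbedding) ∩ R).card =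
      Fintype.card G * (B.card * R.card) := by
    have e1 : ∀ g : G, ((B.map (g : Equiv.Perm E).toEmbedding) ∩ R).card =
        ∑ b ∈ B, ∑ r ∈ R, if (g : Equiv.Perm E) b = r then 1 else 0 := by
      intro g
      have e2 : ∀ b ∈ B, (∑ r ∈ R, if (g : Equiv.Perm E) b = r then 1 else 0) =
          if (g : Equiv.Perm E) b ∈ R then 1 else 0 := by
        intro b _
        rw [Finset.sum_ite_eq]
      rw [Finset.sum_congr rfl e2, ← Finset.card_filter]
      have e3 : (B.map (g : Equiv.Perm E).toEmbedding) ∩ R =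
          (B.filter (fun b => (g : Equiv.Perm E) b ∈ R)).map (g : Equiv.Perm E).toEmbedding := by
        ext x
        simp only [Finset.mem_inter, Finset.mem_map, Finset.mem_filter, Equiv.coe_toEmbedding]
        constructor
        · rintro ⟨⟨b, hb, rfl⟩, hx⟩
          exact ⟨b, ⟨hb, hx⟩, rfl⟩
        · rintro ⟨b, ⟨hb, hx⟩, rfl⟩
          exact ⟨⟨b, hb, rfl⟩, hx⟩
      rw [e3, Finset.card_map]
    have e4 : ∑ g : G, ∑ b ∈ B, ∑ r ∈ R, (if (g : Equiv.Perm E) b = r then 1 else 0) =
        ∑ b ∈ B, ∑ r ∈ R, (Finset.univ.filter (fun g : G => (g : Equiv.Perm E) b = r)).card := by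
      rw [Finset.sum_comm]
      refine Finset.sum_congr rfl (fun b _ => ?_)
      rw [Finset.sum_comm]
      refine Finset.sum_congr rfl (fun r _ => ?_)
      rw [Finset.card_filter]
    rw [← Finset.mul_sum, Finset.sum_congr rfl (fun g _ => e1 g), e4, Finset.mul_sum,
      Finset.sum_congr rfl (fun b _ => Finset.mul_sum _ _ _),
      Finset.sum_congr rfl (fun b _ => Finset.sum_congr rfl (fun r _ => up1_count G hG b r))]
    rw [Finset.sum_const, Finset.sum_const, smul_eq_mul, smul_eq_mul]
    ring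
  have hlt : ∑ g : G, Fintype.card E * ((B.map (g : Equiv.Perm E).toEmbedding) ∩ R).card <
      ∑ g : G, B.card * R.card :=
    Finset.sum_lt_sum_of_nonempty ⟨1, Finset.mem_univ _⟩ (fun g _ => hcon g g.2)
  rw [key, Finset.sum_const, Finset.card_univ, smul_eq_mul] at hlt
  exact lt_irrefl _ hlt

/-- the greedy step, for a set `R` -/
theorem up1_greedy {E : Type*} [Fintype E] [DecidableEq E] (𝒜 : Set E → Prop)
    (n s : ℕ) (hn : Fintype.card E = n) (hs : s ≤ n)
    (h : ∀ R : Finset E, ∃ A : Finset E, A ⊆ R ∧ 𝒜 (A : Set E) ∧ s * R.card ≤ n * A.card)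
    (k0 : ℕ) : ∀ R : Finset E, (R.card : ℝ) * (1 - (s : ℝ) / n) ^ k0 < 1 →
    ∃ A : Fin k0 → Finset E, (∀ i, 𝒜 (A i : Set E)) ∧ ∀ x ∈ R, ∃ i, x ∈ A i := by
  have hq : 0 ≤ 1 - (s : ℝ) / n := by
    have h1 : (s : ℝ) ≤ n := by exact_mod_cast hs
    have h2 : (s : ℝ) / n ≤ 1 := div_le_one_of_le₀ h1 (Nat.cast_nonneg n)
    linarith
  induction k0 with
  | zero =>
    intro R hR
    rw [pow_zero, mul_one] at hR
    have h0 : R.card = 0 := by
      have : R.card < 1 := by exact_mod_cast hR
      omega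
    rw [Finset.card_eq_zero] at h0
    subst h0
    exact ⟨fun i => i.elim0, fun i => i.elim0, fun x hx => absurd hx (Finset.notMem_empty x)⟩
  | succ k0 ih =>
    intro R hR
    obtain ⟨A0, hA1, hA2, hA3⟩ := h R
    have hle : ((R \ A0).card : ℝ) ≤ (R.card : ℝ) * (1 - (s : ℝ) / n) := by
      rcases Nat.eq_zero_or_pos n with hn0 | hn0
      · have hR0 : R.card = 0 := by
          have h1 := Finset.card_le_univ R
          omega
        have h2 : (R \ A0).card = 0 := by
          have h1 := Finset.card_le_card (Finset.sdiff_subset (s := R) (t := A0))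
          omega
        rw [h2, hR0]
        simp
      · have hn' : (0 : ℝ) < n := by exact_mod_cast hn0
        have h1 : (R \ A0).card + A0.card = R.card := by
          rw [Finset.card_sdiff_add_card_eq_card hA1]
        have h1' : ((R \ A0).card : ℝ) + A0.card = R.card := by exact_mod_cast h1
        have h2 : (s : ℝ) * R.card ≤ n * A0.card := by exact_mod_cast hA3
        have h3 : (s : ℝ) / n * R.card ≤ A0.card := by
          rw [div_mul_eq_mul_div, div_le_iff₀ hn']
          linarith
        linarith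
    have hlt : ((R \ A0).card : ℝ) * (1 - (s : ℝ) / n) ^ k0 < 1 := by
      refine lt_of_le_of_lt ?_ hR
      rw [pow_succ']
      calc ((R \ A0).card : ℝ) * (1 - (s : ℝ) / n) ^ k0
          ≤ ((R.card : ℝ) * (1 - (s : ℝ) / n)) * (1 - (s : ℝ) / n) ^ k0 :=
            mul_le_mul_of_nonneg_right hle (pow_nonneg hq k0)
        _ = (R.card : ℝ) * ((1 - (s : ℝ) / n) * (1 - (s : ℝ) / n) ^ k0) := by ring
    obtain ⟨A, hA, hcov⟩ := ih (R \ A0) hlt
    refine ⟨Fin.cons A0 A, ?_, ?_⟩
    · intro i
      refine Fin.cases ?_ (fun j => ?_) i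
      · rw [Fin.cons_zero]
        exact hA2
      · rw [Fin.cons_succ]
        exact hA j
    · intro x hx
      by_cases hx0 : x ∈ A0
      · exact ⟨0, by rw [Fin.cons_zero]; exact hx0⟩
      · obtain ⟨i, hi⟩ := hcov x (Finset.mem_sdiff.2 ⟨hx, hx0⟩)
        exact ⟨i.succ, by rw [Fin.cons_succ]; exact hi⟩

/-- a partition into `k0` members of a family which contains a member of relative size `s / n`
inside every set -/
theorem cover {E : Type*} [Fintype E] [DecidableEq E] (𝒜 : Set E → Prop)
    (hmono : ∀ A B : Set E, A ⊆ B → 𝒜 B → 𝒜 A) (n s : ℕ) (hn : Fintype.card E = n) (hs : s ≤ n)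
    (h : ∀ R : Finset E, ∃ A : Finset E, A ⊆ R ∧ 𝒜 (A : Set E) ∧ s * R.card ≤ n * A.card)
    (k0 : ℕ) (hk : (n : ℝ) * (1 - (s : ℝ) / n) ^ k0 < 1) :
    ∃ t : E → Fin k0, ∀ i, 𝒜 {x | t x = i} := by
  obtain ⟨A, hA, hcov⟩ := up1_greedy 𝒜 n s hn hs h k0 Finset.univ (by
    rw [Finset.card_univ, hn]
    exact hk)
  choose t ht using fun x : E => hcov x (Finset.mem_univ x)
  refine ⟨t, fun i => hmono _ _ (fun x hx => ?_) (hA i)⟩
  have hx' : t x = i := hx
  rw [← hx']
  exact Finset.mem_coe.2 (ht x)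

end Pool.Agent.H57.UP
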