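import Pool.Agent.H52.UB.Defs

/-!
# Project UP (MP_a3214d): definitions

Upper bound for the number of all extensions of degree `n`.
-/

set_option autoImplicit false

open NumberField Module

namespace Pool.Agent.H57.UP

open Pool.Agent.H52.UB

/-- The vectors `w l`, `l < s`, are onto at the places `A`. -/
def Free {F Z : Type*} [Field F] {n : ℕ} (w : Fin n → Z → F) (s : ℕ) (A : Set Z) : Prop :=
  ∀ f : Z → F, ∃ g : Fin n → F, (∀ l : Fin n, s ≤ (l : ℕ) → g l = 0) ∧
    ∀ z ∈ A, ∑ l, g l * w l z = f z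

/-- A design: `n` disjoint tiles; the first `i0` coordinates of an exponent determine the first
`i0` coordinates of its tile. -/
structure Design (n q i0 d : ℕ) (a : Fin n → Fin (q + 1) → ℕ) : Prop where
  pos : ∀ j, 1 ≤ a j 0
  inj : Function.Injective (tbet a)
  deg : ∀ ρ, ∑ l, tbet a ρ l ≤ d
  sep : ∀ ρ ρ' : Fin n × Fin (q + 1), (∀ l : Fin (q + 1), (l : ℕ) < i0 → tbet a ρ l = tbet a ρ' l) →
    ∀ l : Fin (q + 1), (l : ℕ) < i0 → a ρ.1 l = a ρ'.1 l

/-- the class of an exponent: its first `i0` coordinates -/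
def cls {q : ℕ} (i0 : ℕ) (b : Fin (q + 1) → ℕ) : Fin (q + 1) → ℕ :=
  fun l => if (l : ℕ) < i0 then b l else 0

/-- admissible parameters -/
structure Par (n q i0 d s k0 : ℕ) : Prop where
  s1 : 1 ≤ s
  sn : s ≤ n
  cov : (n : ℝ) * (1 - (s : ℝ) / n) ^ k0 < 1
  i1 : 1 ≤ i0
  iq : i0 ≤ q + 1
  d2 : 2 ≤ d
  many : i0 * (q + 2 - i0) * (2 * n) ≤ Nat.choose (q + 1 + (d - 2)) (q + 1)
  cap : k0 * Nat.choose (d - 2 + (q + 1 - i0)) (q + 1 - i0) ≤ n

/-- the exponent of the size of the variable `i` -/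
noncomputable def yy (m n i0 s i : ℕ) : ℝ :=
  if i < i0 then 1 / ((m : ℝ) * n) else 1 / (2 * m * ((n : ℝ) - s + 1))

/-- the exponent of the bound -/
noncomputable def expoU {n q : ℕ} (i0 s : ℕ) (a : Fin n → Fin (q + 1) → ℕ) : ℝ :=
  ∑ ρ, ∑ l : Fin (q + 1), (tbet a ρ l : ℝ) * yy 1 n i0 s l

/-- the number of extensions of `k` of degree `n`, up to isomorphism, whose relative discriminant
has norm at most `B` -/
noncomputable def totalCount (k : Type) [Field k] [NumberField k] (n : ℕ) (B : ℝ) : ℕ :=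
  Nat.card (Quot (fun L L' : {M : IntermediateField k (AlgebraicClosure k) //
      finrank k M = n ∧ ∃ h : NumberField M,
        ((|@NumberField.discr M _ h| : ℤ) : ℝ) ≤ B * ((|NumberField.discr k| : ℤ) : ℝ) ^ n}
    => Nonempty (L.1 ≃ₐ[k] L'.1)))

end Pool.Agent.H57.UP
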