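import Pool.Agent.H57.UP.Defs

/-!
# Project UP (MP_a3214d): a design verifies the hypothesis of the determinant bound
-/

set_option autoImplicit false

namespace Pool.Agent.H57.UP

open Pool.Agent.H52.UB

theorem design_hyp {F : Type*} [Field F] {n q i0 d s k0 : ℕ} {a : Fin n → Fin (q + 1) → ℕ}
    (hD : Design n q i0 d a) (w : Fin n → Fin n → F) (t : Fin n → Fin k0)
    (hall : Free w n Set.univ) (ht : ∀ i, Free w s {j | t j = i})
    (hc : ∀ j j', cls i0 (a j) = cls i0 (a j') → t j = t j') :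
    ∀ (i : Fin (q + 1)) (c : Fin (q + 1) → ℕ) (f : Fin n → F), ∃ g : Fin n → F,
      (∀ l : Fin n, (if (i : ℕ) < i0 then n else s) ≤ (l : ℕ) → g l = 0) ∧
      ∀ j : Fin n, (∃ i', ∀ l < i, tbet a (j, i') l = c l) → ∑ l, g l * w l j = f j := by
  intro i c f
  by_cases hi : (i : ℕ) < i0
  · obtain ⟨g, hg1, hg2⟩ := hall f
    refine ⟨g, fun l hl => ?_, fun j _ => hg2 j (Set.mem_univ j)⟩
    rw [if_pos hi] at hl
    exact hg1 l hl
  · rw [if_neg hi]
    by_cases hq : ∃ j : Fin n, ∃ i', ∀ l < i, tbet a (j, i') l = c l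
    · obtain ⟨j0, i0', h0⟩ := hq
      obtain ⟨g, hg1, hg2⟩ := ht (t j0) f
      refine ⟨g, hg1, fun j hj => ?_⟩
      obtain ⟨i', h1⟩ := hj
      refine hg2 j ?_
      rw [Set.mem_ofPred_eq]
      apply hc
      funext l
      unfold cls
      by_cases hl : (l : ℕ) < i0
      · rw [if_pos hl, if_pos hl]
        refine hD.sep (j, i') (j0, i0') (fun l' hl' => ?_) l hl
        have hlt : l' < i := by
          rw [Fin.lt_def]
          omega
        rw [h1 l' hlt, h0 l' hlt]
      · rw [if_neg hl, if_neg hl]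
    · refine ⟨0, fun _ _ => rfl, fun j hj => ?_⟩
      exact absurd ⟨j, hj⟩ hq

end Pool.Agent.H57.UP
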