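import Pool.Agent.H57.UP.Defs
import Pool.Agent.H52.UB.ExpoLe

/-!
# Project UP (MP_a3214d), row UP-9: bound of the exponent
-/

set_option autoImplicit false

open NumberField Module

namespace Pool.Agent.H57.UP

open Pool.Agent.H52.UB

theorem up9_col {n q d : ℕ} (a : Fin n → Fin (q + 1) → ℕ) (hinj : Function.Injective (tbet a))
    (hd : ∀ ρ, ∑ l, tbet a ρ l ≤ d) (l : Fin (q + 1)) :
    (q + 1) * ∑ ρ, tbet a ρ l ≤ d * (q + 1 + d).choose d := by
  classical
  have h1 : ∑ ρ, tbet a ρ l = ∑ b ∈ Finset.univ.image (tbet a), b l := by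
    rw [Finset.sum_image (fun x _ y _ h => hinj h)]
  have h2 : ∑ b ∈ Finset.univ.image (tbet a), b l ≤ ∑ b ∈ ub24_S (q + 1) d, b l := by
    refine Finset.sum_le_sum_of_subset ?_
    intro b hb
    rw [Finset.mem_image] at hb
    obtain ⟨ρ, _, rfl⟩ := hb
    rw [ub24_mem]
    exact hd ρ
  rw [h1]
  calc (q + 1) * ∑ b ∈ Finset.univ.image (tbet a), b l
      ≤ (q + 1) * ∑ b ∈ ub24_S (q + 1) d, b l := Nat.mul_le_mul_left _ h2
    _ ≤ d * (ub24_S (q + 1) d).card := ub24_sum (q + 1) d l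
    _ ≤ d * (q + 1 + d).choose d := Nat.mul_le_mul_left _
        (ub24_card (q + 1) d _ fun b hb => (ub24_mem _ _ b).mp hb)

theorem expoU_le {n q i0 d s : ℕ} (hs : s ≤ n) (hn : 1 ≤ n) (a : Fin n → Fin (q + 1) → ℕ)
    (hD : Design n q i0 d a) :
    expoU i0 s a ≤ ((q : ℝ) + 1) * d * n / (2 * ((n : ℝ) - s + 1)) +
      i0 * (d * (Nat.choose (q + 1 + d) d : ℝ)) / ((q + 1) * n) := by
  have hn0 : (0 : ℝ) < n := by exact_mod_cast hn
  have hq0 : (0 : ℝ) < (q : ℝ) + 1 := by positivity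
  have hsn : (s : ℝ) ≤ n := by exact_mod_cast hs
  have hden : (0 : ℝ) < 2 * ((n : ℝ) - s + 1) := by linarith
  set A : Fin (q + 1) → ℝ := fun l => ((∑ ρ, tbet a ρ l : ℕ) : ℝ) with hA
  have hA0 : ∀ l, 0 ≤ A l := fun l => Nat.cast_nonneg _
  set K : ℝ := (d * (Nat.choose (q + 1 + d) d : ℝ)) / ((q + 1) * n) with hK
  have hK0 : 0 ≤ K := by positivity
  have hcol : ∀ l, A l / n ≤ K := by
    intro l
    have h1 := up9_col a hD.inj hD.deg l
    have h2 : ((q : ℝ) + 1) * A l ≤ d * (Nat.choose (q + 1 + d) d : ℝ) := by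
      have h3 : (((q + 1) * ∑ ρ, tbet a ρ l : ℕ) : ℝ) ≤ ((d * (q + 1 + d).choose d : ℕ) : ℝ) := by
        exact_mod_cast h1
      rw [Nat.cast_mul, Nat.cast_mul] at h3
      push_cast at h3 ⊢
      simpa [hA] using h3
    rw [hK, div_le_div_iff₀ hn0 (by positivity)]
    nlinarith
  have htot : ∑ l, A l ≤ ((q : ℝ) + 1) * d * n := by
    have h1 : ∑ l, A l = ∑ ρ, ((∑ l, tbet a ρ l : ℕ) : ℝ) := by
      simp only [hA]
      push_cast
      rw [Finset.sum_comm]
    rw [h1]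
    have h2 : ∀ ρ ∈ (Finset.univ : Finset (Fin n × Fin (q + 1))),
        ((∑ l, tbet a ρ l : ℕ) : ℝ) ≤ d := by
      intro ρ _
      exact_mod_cast hD.deg ρ
    refine (Finset.sum_le_card_nsmul _ _ _ h2).trans (le_of_eq ?_)
    rw [nsmul_eq_mul]
    simp only [Finset.card_univ, Fintype.card_prod, Fintype.card_fin]
    push_cast
    ring
  have hexp : expoU i0 s a = ∑ l : Fin (q + 1), A l * yy 1 n i0 s l := by
    unfold expoU
    rw [Finset.sum_comm]
    refine Finset.sum_congr rfl fun l _ => ?_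
    rw [← Finset.sum_mul]
    simp [hA]
  have hterm : ∀ l : Fin (q + 1), A l * yy 1 n i0 s l ≤
      A l / (2 * ((n : ℝ) - s + 1)) + (if (l : ℕ) < i0 then K else 0) := by
    intro l
    unfold yy
    split_ifs with hl
    · have h1 := hcol l
      have h2 : 0 ≤ A l / (2 * ((n : ℝ) - s + 1)) := div_nonneg (hA0 l) hden.le
      have h3 : A l * (1 / (((1 : ℕ) : ℝ) * n)) = A l / n := by
        rw [Nat.cast_one, one_mul, mul_one_div]
      rw [h3]
      linarith
    · rw [Nat.cast_one, mul_one, mul_one_div, add_zero]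
  rw [hexp]
  refine (Finset.sum_le_sum fun l _ => hterm l).trans ?_
  rw [Finset.sum_add_distrib, ← Finset.sum_div]
  have h1 : (∑ l, A l) / (2 * ((n : ℝ) - s + 1)) ≤
      ((q : ℝ) + 1) * d * n / (2 * ((n : ℝ) - s + 1)) := by gcongr
  have h2 : ∑ l : Fin (q + 1), (if (l : ℕ) < i0 then K else 0) ≤ i0 * K := by
    rw [← Finset.sum_filter, Finset.sum_const, nsmul_eq_mul]
    refine mul_le_mul_of_nonneg_right ?_ hK0
    have h3 : (Finset.univ.filter fun l : Fin (q + 1) => (l : ℕ) < i0).card ≤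
        (Finset.range i0).card := by
      refine Finset.card_le_card_of_injOn (fun l => (l : ℕ)) ?_ (fun a _ b _ h => Fin.ext h)
      intro l hl
      simpa using hl
    rw [Finset.card_range] at h3
    exact_mod_cast h3
  have h3 : (i0 : ℝ) * K = i0 * (d * (Nat.choose (q + 1 + d) d : ℝ)) / ((q + 1) * n) := by
    rw [hK, ← mul_div_assoc]
  linarith

end Pool.Agent.H57.UP
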