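import Pool.Agent.H57.UP.Defs
import Pool.Agent.H52.UB.Choice

/-!
# Project UP, row 5: places with a two-level colouring
-/

set_option autoImplicit false

namespace Pool.Agent.H57.UP

open Pool.Agent.H52.UB

/-- the first colour -/
def up5_c1 {q : ℕ} (i0 : ℕ) (f : Fin (q + 1) → ℕ) : ZMod i0 :=
  ∑ l : Fin (q + 1), (((if (l : ℕ) < i0 then (l : ℕ) else 0) * f l : ℕ) : ZMod i0)

/-- the second colour -/
def up5_c2 {q : ℕ} (i0 : ℕ) (f : Fin (q + 1) → ℕ) : ZMod (q + 2 - i0) :=
  ∑ l : Fin (q + 1),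
    (((if (l : ℕ) < i0 then 0 else (l : ℕ) - i0 + 1) * f l : ℕ) : ZMod (q + 2 - i0))

theorem up5_c1_add {q : ℕ} (i0 : ℕ) (f g : Fin (q + 1) → ℕ) :
    up5_c1 i0 (f + g) = up5_c1 i0 f + up5_c1 i0 g := by
  simp only [up5_c1, Pi.add_apply, mul_add, Nat.cast_add, Finset.sum_add_distrib]

theorem up5_c2_add {q : ℕ} (i0 : ℕ) (f g : Fin (q + 1) → ℕ) :
    up5_c2 i0 (f + g) = up5_c2 i0 f + up5_c2 i0 g := by
  simp only [up5_c2, Pi.add_apply, mul_add, Nat.cast_add, Finset.sum_add_distrib]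

theorem up5_c1_single {q : ℕ} (i0 : ℕ) (i : Fin (q + 1)) :
    up5_c1 i0 (Pi.single i 1) = ((if (i : ℕ) < i0 then (i : ℕ) else 0 : ℕ) : ZMod i0) := by
  simp only [up5_c1]
  rw [Finset.sum_eq_single i]
  · rw [Pi.single_eq_same, mul_one]
  · intro l _ hl
    rw [Pi.single_eq_of_ne hl, mul_zero, Nat.cast_zero]
  · intro hi
    exact absurd (Finset.mem_univ i) hi

theorem up5_c2_single {q : ℕ} (i0 : ℕ) (i : Fin (q + 1)) :
    up5_c2 i0 (Pi.single i 1) =
      ((if (i : ℕ) < i0 then 0 else (i : ℕ) - i0 + 1 : ℕ) : ZMod (q + 2 - i0)) := by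
  simp only [up5_c2]
  rw [Finset.sum_eq_single i]
  · rw [Pi.single_eq_same, mul_one]
  · intro l _ hl
    rw [Pi.single_eq_of_ne hl, mul_zero, Nat.cast_zero]
  · intro hi
    exact absurd (Finset.mem_univ i) hi

/-- the first colour only depends on the first coordinates -/
theorem up5_c1_congr {q : ℕ} (i0 : ℕ) (f g : Fin (q + 1) → ℕ)
    (h : ∀ l : Fin (q + 1), (l : ℕ) < i0 → f l = g l) : up5_c1 i0 f = up5_c1 i0 g := by
  refine Finset.sum_congr rfl fun l _ => ?_
  by_cases hl : (l : ℕ) < i0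
  · rw [h l hl]
  · rw [if_neg hl, zero_mul, zero_mul]

theorem up5_c1_tbet {n q : ℕ} (i0 : ℕ) (a : Fin n → Fin (q + 1) → ℕ) (κ : ZMod i0)
    (ha : ∀ j, up5_c1 i0 (a j) = κ) (ρ : Fin n × Fin (q + 1)) :
    up5_c1 i0 (tbet a ρ) = κ + ((if (ρ.2 : ℕ) < i0 then (ρ.2 : ℕ) else 0 : ℕ) : ZMod i0) := by
  unfold tbet
  split_ifs with h1 h2 h2
  · rw [ha, h1]
    simp
  · rw [ha, Nat.cast_zero, add_zero]
  · rw [up5_c1_add, ha, up5_c1_single, if_pos h2]
  · rw [up5_c1_add, ha, up5_c1_single, if_neg h2]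

theorem up5_c2_tbet {n q : ℕ} (i0 : ℕ) (hi : 1 ≤ i0) (a : Fin n → Fin (q + 1) → ℕ)
    (κ : ZMod (q + 2 - i0)) (ha : ∀ j, up5_c2 i0 (a j) = κ) (ρ : Fin n × Fin (q + 1)) :
    up5_c2 i0 (tbet a ρ) =
      κ + ((if (ρ.2 : ℕ) < i0 then 0 else (ρ.2 : ℕ) - i0 + 1 : ℕ) : ZMod (q + 2 - i0)) := by
  unfold tbet
  split_ifs with h1 h2 h2
  · rw [ha, Nat.cast_zero, add_zero]
  · exfalso
    apply h2
    rw [h1]
    have h3 : 0 < i0 := hi
    simpa using h3
  · rw [up5_c2_add, ha, up5_c2_single, if_pos h2]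
  · rw [up5_c2_add, ha, up5_c2_single, if_neg h2]

theorem up5_cast_inj {m a b : ℕ} (ha : a < m) (hb : b < m) (h : (a : ZMod m) = (b : ZMod m)) :
    a = b := by
  rw [ZMod.natCast_eq_natCast_iff'] at h
  rwa [Nat.mod_eq_of_lt ha, Nat.mod_eq_of_lt hb] at h

/-- the design property -/
theorem up5_design {n q i0 d : ℕ} (hi1 : 1 ≤ i0) (hiq : i0 ≤ q + 1)
    (a : Fin n → Fin (q + 1) → ℕ) (hinj : Function.Injective a) (hpos : ∀ j, 1 ≤ a j 0)
    (hdeg : ∀ j, ∑ l, a j l + 1 ≤ d) (κ : ZMod i0) (κ' : ZMod (q + 2 - i0))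
    (h1 : ∀ j, up5_c1 i0 (a j) = κ) (h2 : ∀ j, up5_c2 i0 (a j) = κ') : Design n q i0 d a := by
  have hc1 : ∀ ρ ρ' : Fin n × Fin (q + 1), up5_c1 i0 (tbet a ρ) = up5_c1 i0 (tbet a ρ') →
      (if (ρ.2 : ℕ) < i0 then (ρ.2 : ℕ) else 0) = if (ρ'.2 : ℕ) < i0 then (ρ'.2 : ℕ) else 0 := by
    intro ρ ρ' h
    rw [up5_c1_tbet i0 a κ h1, up5_c1_tbet i0 a κ h1] at h
    refine up5_cast_inj ?_ ?_ (add_left_cancel h)
    · split_ifs with h3
      · exact h3
      · omega
    · split_ifs with h3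
      · exact h3
      · omega
  have hc2 : ∀ ρ ρ' : Fin n × Fin (q + 1), up5_c2 i0 (tbet a ρ) = up5_c2 i0 (tbet a ρ') →
      (if (ρ.2 : ℕ) < i0 then 0 else (ρ.2 : ℕ) - i0 + 1) =
        if (ρ'.2 : ℕ) < i0 then 0 else (ρ'.2 : ℕ) - i0 + 1 := by
    intro ρ ρ' h
    rw [up5_c2_tbet i0 hi1 a κ' h2, up5_c2_tbet i0 hi1 a κ' h2] at h
    have e1 := ρ.2.2
    have e2 := ρ'.2.2
    refine up5_cast_inj ?_ ?_ (add_left_cancel h)
    · split_ifs with h3
      · omega
      · omega
    · split_ifs with h3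
      · omega
      · omega
  refine ⟨hpos, ?_, ?_, ?_⟩
  · intro ρ ρ' h
    have e1 := hc1 ρ ρ' (congrArg _ h)
    have e2 := hc2 ρ ρ' (congrArg _ h)
    have e3 : ρ.2 = ρ'.2 := by
      apply Fin.ext
      split_ifs at e1 e2 <;> omega
    have e4 : a ρ.1 = a ρ'.1 := by
      unfold tbet at h
      rw [e3] at h
      split_ifs at h with h5
      · exact h
      · exact add_right_cancel h
    exact Prod.ext (hinj e4) e3
  · intro ρ
    unfold tbet
    split_ifs with h3
    · have := hdeg ρ.1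
      omega
    · simp only [Pi.add_apply, Finset.sum_add_distrib]
      rw [Finset.sum_pi_single']
      simp only [Finset.mem_univ, if_true]
      exact hdeg ρ.1
  · intro ρ ρ' h l hl
    have e1 := hc1 ρ ρ' (up5_c1_congr i0 _ _ h)
    have key : ∀ ρ : Fin n × Fin (q + 1), tbet a ρ l =
        a ρ.1 l + if (l : ℕ) ≠ 0 ∧ (l : ℕ) = (if (ρ.2 : ℕ) < i0 then (ρ.2 : ℕ) else 0) then 1
          else 0 := by
      intro ρ
      unfold tbet
      by_cases h3 : ρ.2 = 0
      · rw [if_pos h3, h3]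
        rw [if_neg, add_zero]
        rintro ⟨h4, h5⟩
        split_ifs at h5
        · exact h4 (by simpa using h5)
        · exact h4 h5
      · rw [if_neg h3, Pi.add_apply]
        have h30 : (ρ.2 : ℕ) ≠ 0 := fun h => h3 (Fin.ext h)
        by_cases h4 : l = ρ.2
        · subst h4
          rw [Pi.single_eq_same, if_pos hl, if_pos ⟨h30, rfl⟩]
        · rw [Pi.single_eq_of_ne h4]
          rw [if_neg]
          rintro ⟨h5, h6⟩
          split_ifs at h6
          · exact h4 (Fin.ext h6)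
          · exact h5 h6
    have h6 := h l hl
    rw [key ρ, key ρ', e1] at h6
    exact add_right_cancel h6

theorem exists_places {q i0 d : ℕ} (hi1 : 1 ≤ i0) (hiq : i0 ≤ q + 1) (hd : 2 ≤ d) :
    ∃ P : Finset (Fin (q + 1) → ℕ),
      Nat.choose (q + 1 + (d - 2)) (q + 1) ≤ i0 * (q + 2 - i0) * P.card ∧
      (∀ c : Fin (q + 1) → ℕ, (P.filter (fun b => cls i0 b = c)).card ≤
        Nat.choose (d - 2 + (q + 1 - i0)) (q + 1 - i0)) ∧
      ∀ (n : ℕ) (a : Fin n → Fin (q + 1) → ℕ), Function.Injective a → (∀ j, a j ∈ P) →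
        Design n q i0 d a := by
  classical
  have hz1 : NeZero i0 := ⟨by omega⟩
  have hz2 : NeZero (q + 2 - i0) := ⟨by omega⟩
  let S := {f : Fin (q + 1) → ℕ // ∑ l, f l ≤ d - 2}
  have hfin : Finite S := ub8_finite _ _
  let _ : Fintype S := Fintype.ofFinite S
  have hcard : Fintype.card S = Nat.choose (q + 1 + (d - 2)) (q + 1) := by
    rw [← Nat.card_eq_fintype_card, ub8_card, Fintype.card_fin]
    exact (Nat.choose_symm_add).symm
  let col : S → ZMod i0 × ZMod (q + 2 - i0) := fun f =>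
    (up5_c1 i0 (f.1 + Pi.single 0 1), up5_c2 i0 (f.1 + Pi.single 0 1))
  obtain ⟨κ, -, hκ⟩ := Finset.exists_max_image Finset.univ
    (fun κ => (Finset.univ.filter (fun f : S => col f = κ)).card) Finset.univ_nonempty
  set Q : Finset S := Finset.univ.filter (fun f : S => col f = κ) with hQ
  have hinj : Function.Injective (fun f : S => f.1 + (Pi.single 0 1 : Fin (q + 1) → ℕ)) := by
    intro f g h
    exact Subtype.ext (add_right_cancel h)
  set P : Finset (Fin (q + 1) → ℕ) := Q.image (fun f : S => f.1 + Pi.single 0 1) with hP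
  have hPc : P.card = Q.card := Finset.card_image_of_injective _ hinj
  have hmem : ∀ b ∈ P, ∃ f : S, f.1 + Pi.single 0 1 = b ∧ up5_c1 i0 b = κ.1 ∧
      up5_c2 i0 b = κ.2 := by
    intro b hb
    obtain ⟨f, hf, rfl⟩ := Finset.mem_image.1 hb
    have h1 := (Finset.mem_filter.1 hf).2
    exact ⟨f, rfl, congrArg Prod.fst h1, congrArg Prod.snd h1⟩
  refine ⟨P, ?_, ?_, ?_⟩
  · rw [← hcard, hPc]
    have h1 : Fintype.card S = ∑ κ : ZMod i0 × ZMod (q + 2 - i0),
        (Finset.univ.filter (fun f : S => col f = κ)).card := by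
      rw [← Finset.card_univ]
      exact Finset.card_eq_sum_card_fiberwise (fun f _ => Finset.mem_coe.2 (Finset.mem_univ _))
    rw [h1]
    refine (Finset.sum_le_card_nsmul _ _ Q.card fun κ' _ => hκ κ' (Finset.mem_univ _)).trans ?_
    rw [Finset.card_univ, Fintype.card_prod, ZMod.card, ZMod.card, smul_eq_mul]
  · intro c
    set T := P.filter (fun b => cls i0 b = c) with hT
    let g : T → {f : {l : Fin (q + 1) // i0 ≤ (l : ℕ)} → ℕ // ∑ l, f l ≤ d - 2} := fun b =>
      ⟨fun l => b.1 l.1, by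
        obtain ⟨f, hf, -, -⟩ := hmem b.1 (Finset.mem_filter.1 b.2).1
        have h1 : ∑ l : {l : Fin (q + 1) // i0 ≤ (l : ℕ)}, b.1 l.1 =
            ∑ l : {l : Fin (q + 1) // i0 ≤ (l : ℕ)}, f.1 l.1 := by
          refine Finset.sum_congr rfl fun l _ => ?_
          rw [← hf, Pi.add_apply, Pi.single_eq_of_ne, add_zero]
          intro h
          have h2 := l.2
          rw [h] at h2
          simp at h2
          omega
        rw [h1]
        have h2 : ∑ l : {l : Fin (q + 1) // i0 ≤ (l : ℕ)}, f.1 l.1 =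
            ∑ l ∈ Finset.univ.filter (fun l : Fin (q + 1) => i0 ≤ (l : ℕ)), f.1 l :=
          (Finset.sum_subtype _ (by simp) _).symm
        rw [h2]
        exact (Finset.sum_le_sum_of_subset (Finset.filter_subset _ _)).trans f.2⟩
    have hg : Function.Injective g := by
      intro b b' hbb
      apply Subtype.ext
      funext l
      rcases lt_or_ge (l : ℕ) i0 with hl | hl
      · have h1 := congrFun (Finset.mem_filter.1 b.2).2 l
        have h2 := congrFun (Finset.mem_filter.1 b'.2).2 l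
        simp only [cls, if_pos hl] at h1 h2
        rw [h1, h2]
      · exact congrFun (congrArg Subtype.val hbb) ⟨l, hl⟩
    have hfin2 := ub8_finite {l : Fin (q + 1) // i0 ≤ (l : ℕ)} (d - 2)
    have h2 := Nat.card_le_card_of_injective g hg
    rw [ub8_card] at h2
    have h3 : Fintype.card {l : Fin (q + 1) // i0 ≤ (l : ℕ)} = q + 1 - i0 := by
      rw [Fintype.card_subtype]
      have h4 : (Finset.univ.filter (fun l : Fin (q + 1) => i0 ≤ (l : ℕ))).card
          = (Finset.univ : Finset (Fin (q + 1))).card -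
            (Finset.univ.filter (fun l : Fin (q + 1) => (l : ℕ) < i0)).card := by
        have := Finset.card_filter_add_card_filter_not (s := (Finset.univ : Finset (Fin (q + 1))))
          (fun l : Fin (q + 1) => (l : ℕ) < i0)
        simp only [not_lt] at this
        omega
      rw [h4, Finset.card_univ, Fintype.card_fin, Fin.card_filter_val_lt]
      omega
    rw [h3, Nat.card_eq_fintype_card, Fintype.card_coe] at h2
    refine h2.trans (le_of_eq ?_)
    rw [add_comm (q + 1 - i0) (d - 2)]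
    exact Nat.choose_symm_add
  · intro n a hainj haP
    refine up5_design hi1 hiq a hainj ?_ ?_ κ.1 κ.2 ?_ ?_
    · intro j
      obtain ⟨f, hf, -, -⟩ := hmem _ (haP j)
      rw [← hf, Pi.add_apply, Pi.single_eq_same]
      exact Nat.le_add_left _ _
    · intro j
      obtain ⟨f, hf, -, -⟩ := hmem _ (haP j)
      rw [← hf]
      simp only [Pi.add_apply, Finset.sum_add_distrib]
      rw [Finset.sum_pi_single']
      simp only [Finset.mem_univ, if_true]
      have := f.2
      omega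
    · intro j
      obtain ⟨f, -, h1, -⟩ := hmem _ (haP j)
      exact h1
    · intro j
      obtain ⟨f, -, -, h1⟩ := hmem _ (haP j)
      exact h1

end Pool.Agent.H57.UP
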